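import Pool.Agent.helper52.FS.SpecD

/-!
# MP_07c750, project FS, row `fs:PMN`: `P`-minimality
-/

open scoped MatrixGroups ContDiff Topology UpperHalfPlane ComplexConjugate
open UpperHalfPlane MeasureTheory Filter Set

set_option autoImplicit false

namespace Pool.Agent.FS

open Pool.Agent.RS
open Pool.Agent.MS (bq BB BA SF pf)
open Pool.Agent.EN (XG MG mkX mkM fl pr)

noncomputable section

/-- the involution `Γ g ↦ Γ (-g)` -/
def PMN_s (Γ : Subgroup SL(2, ℝ)) : XG Γ → XG Γ :=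
  Quotient.map (fun g : SL(2, ℝ) => -g) (by
    rintro a b ⟨γ, h⟩
    refine ⟨γ, ?_⟩
    have h' : (γ : SL(2, ℝ)) * b = a := h
    show (γ : SL(2, ℝ)) * (-b) = -a
    rw [mul_neg, h'])

theorem PMN_s_mk (Γ : Subgroup SL(2, ℝ)) (g : SL(2, ℝ)) : PMN_s Γ (mkX Γ g) = mkX Γ (-g) := rfl

theorem PMN_k0 : kM 0 = 1 := by
  apply Subtype.ext
  ext i j
  fin_cases i <;> fin_cases j <;> simp [kM]

theorem PMN_kpi : kM Real.pi = -1 := by
  apply Subtype.ext
  ext i j
  fin_cases i <;> fin_cases j <;> simp [kM]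

theorem PMN_proof (hPMS : PMS_stmt) (hXFL : EN.XFL_stmt) (hGLC : GLC_stmt) : PMN_stmt := by
  intro Γ Z hΓ hZ hne hP
  obtain ⟨-, -, hXc, hXo, hXs, -, -, -, -, -, -, -⟩ := hXFL Γ
  have hkM : Continuous kM := hGLC.2.2.2.2.2.2.1
  have hsc : Continuous (PMN_s Γ) := by
    refine (hXo.isQuotientMap hXc hXs).continuous_iff.2 ?_
    have h1 : (PMN_s Γ) ∘ (mkX Γ) = fun g : SL(2, ℝ) => mkX Γ ((-1) * g) := by
      funext g
      show PMN_s Γ (mkX Γ g) = mkX Γ ((-1) * g)
      rw [PMN_s_mk, neg_one_mul]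
    rw [h1]
    exact hXc.comp (continuous_const.mul continuous_id)
  set Z' : Set (XG Γ) := (PMN_s Γ) ⁻¹' Z with hZ'
  have hZc' : IsClosed Z' := hZ.preimage hsc
  have hmem : ∀ g : SL(2, ℝ), mkX Γ g ∈ Z' ↔ mkX Γ (-g) ∈ Z := by
    intro g
    rw [hZ', mem_preimage, PMN_s_mk]
  have hP' : ∀ (g : SL(2, ℝ)) (s u : ℝ), mkX Γ g ∈ Z' → mkX Γ (g * aM s * lM u) ∈ Z' := by
    intro g s u hg
    rw [hmem] at hg ⊢
    have h1 := hP (-g) s u hg
    rw [neg_mul, neg_mul] at h1
    exact h1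
  -- the union is everything
  have hU : Z ∪ Z' = univ := by
    refine hPMS Γ (Z ∪ Z') hΓ (hZ.union hZc') (hne.mono subset_union_left) ?_ ?_
    · intro g s u hg
      rcases hg with hg | hg
      · exact Or.inl (hP g s u hg)
      · exact Or.inr (hP' g s u hg)
    · intro g hg
      rcases hg with hg | hg
      · refine Or.inr ?_
        rw [hmem, neg_neg]
        exact hg
      · exact Or.inl ((hmem g).1 hg)
  -- the intersection is not empty
  have hI : (Z ∩ Z').Nonempty := by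
    by_contra hcon
    rw [not_nonempty_iff_eq_empty] at hcon
    obtain ⟨x, hx⟩ := hne
    obtain ⟨g, rfl⟩ := hXs x
    have hq : Continuous (fun θ : ℝ => mkX Γ (g * kM θ)) := hXc.comp (continuous_const.mul hkM)
    set A : Set ℝ := (fun θ : ℝ => mkX Γ (g * kM θ)) ⁻¹' Z with hA
    set B : Set ℝ := (fun θ : ℝ => mkX Γ (g * kM θ)) ⁻¹' Z' with hB
    have hAc : IsClosed A := hZ.preimage hq
    have hBc : IsClosed B := hZc'.preimage hq
    have hAB : A = Bᶜ := by
      ext θ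
      constructor
      · intro h1 h2
        have h3 : mkX Γ (g * kM θ) ∈ Z ∩ Z' := ⟨h1, h2⟩
        rw [hcon] at h3
        exact h3
      · intro h1
        have h2 : mkX Γ (g * kM θ) ∈ Z ∪ Z' := by
          rw [hU]
          exact mem_univ _
        rcases h2 with h2 | h2
        · exact h2
        · exact absurd h2 h1
    have hcl : IsClopen A := ⟨hAc, by rw [hAB]; exact hBc.isOpen_compl⟩
    have h0 : (0 : ℝ) ∈ A := by
      show mkX Γ (g * kM 0) ∈ Z
      rw [PMN_k0, mul_one]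
      exact hx
    have hAu := hcl.eq_univ ⟨0, h0⟩
    have hpi : Real.pi ∈ A := by
      rw [hAu]
      exact mem_univ _
    have hpi' : mkX Γ (g * kM Real.pi) ∈ Z := hpi
    rw [PMN_kpi, mul_neg, mul_one] at hpi'
    have h3 : mkX Γ g ∈ Z ∩ Z' := ⟨hx, (hmem g).2 hpi'⟩
    rw [hcon] at h3
    exact h3
  have hIu : Z ∩ Z' = univ := by
    refine hPMS Γ (Z ∩ Z') hΓ (hZ.inter hZc') hI ?_ ?_
    · intro g s u hg
      exact ⟨hP g s u hg.1, hP' g s u hg.2⟩
    · intro g hg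
      refine ⟨(hmem g).1 hg.2, ?_⟩
      rw [hmem, neg_neg]
      exact hg.1
  rw [eq_univ_iff_forall] at hIu ⊢
  intro x
  exact (hIu x).1

end

end Pool.Agent.FS
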