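import Pool.Agent.helper52.FS.SpecP

/-!
# MP_07c750, project FS, row `fs:RRW`: the Cauchy transform of the window
-/

open MeasureTheory Set

set_option autoImplicit false

namespace Pool.Agent.FS

noncomputable section

theorem RRW_dist {w : ℂ} (hw : w.im ≠ 0 ∨ 1 < |w.re|) : ∃ d : ℝ, 0 < d ∧ ∀ z : ℂ, z ∈ Metric.ball w d → ∀ s ∈ Icc (-1 : ℝ) 1, d ≤ ‖(s : ℂ) - z‖ := by
  refine ⟨max |w.im| (|w.re| - 1) / 2, ?_, ?_⟩
  · rcases hw with h | h
    · have := abs_pos.2 h
      have h2 := le_max_left |w.im| (|w.re| - 1)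
      linarith
    · have h2 := le_max_right |w.im| (|w.re| - 1)
      linarith
  · intro z hz s hs
    have hz' : ‖z - w‖ < max |w.im| (|w.re| - 1) / 2 := by
      rw [← dist_eq_norm]
      exact hz
    have h1 : max |w.im| (|w.re| - 1) ≤ ‖(s : ℂ) - w‖ := by
      apply max_le
      · have h2 := Complex.abs_im_le_norm ((s : ℂ) - w)
        have h3 : ((s : ℂ) - w).im = -w.im := by simp
        rw [h3, abs_neg] at h2
        exact h2
      · have h2 := Complex.abs_re_le_norm ((s : ℂ) - w)
        have h3 : ((s : ℂ) - w).re = s - w.re := by simp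
        rw [h3] at h2
        have h4 : |w.re| ≤ |s - w.re| + |s| := by
          have h5 : w.re = s - (s - w.re) := by ring
          calc |w.re| = |s - (s - w.re)| := by rw [← h5]
            _ ≤ |s| + |s - w.re| := abs_sub _ _
            _ = |s - w.re| + |s| := add_comm _ _
        have h6 : |s| ≤ 1 := abs_le.2 ⟨hs.1, hs.2⟩
        linarith
    have h2 : ‖(s : ℂ) - w‖ ≤ ‖(s : ℂ) - z‖ + ‖z - w‖ := by
      have h3 : (s : ℂ) - w = ((s : ℂ) - z) + (z - w) := by ring
      rw [h3]
      exact norm_add_le _ _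
    linarith

theorem RRW_diff (w : ℂ) (hw : w.im ≠ 0 ∨ 1 < |w.re|) : DifferentiableAt ℂ RR w := by
  obtain ⟨d, hd, hdist⟩ := RRW_dist hw
  have hne : ∀ z ∈ Metric.ball w d, ∀ s ∈ Icc (-1 : ℝ) 1, (s : ℂ) - z ≠ 0 := by
    intro z hz s hs h0
    have := hdist z hz s hs
    rw [h0, norm_zero] at this
    linarith
  have hcont : ∀ z ∈ Metric.ball w d, ContinuousOn (fun s : ℝ => ((1 - |s| : ℝ) : ℂ) / ((s : ℂ) - z)) (Icc (-1 : ℝ) 1) := by
    intro z hz
    refine ContinuousOn.div ?_ ?_ (hne z hz)
    · exact (Complex.continuous_ofReal.comp (continuous_const.sub continuous_abs)).continuousOn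
    · exact (Complex.continuous_ofReal.sub continuous_const).continuousOn
  have hcont2 : ContinuousOn (fun s : ℝ => ((1 - |s| : ℝ) : ℂ) / ((s : ℂ) - w) ^ 2) (Icc (-1 : ℝ) 1) := by
    refine ContinuousOn.div ?_ ?_ ?_
    · exact (Complex.continuous_ofReal.comp (continuous_const.sub continuous_abs)).continuousOn
    · exact ((Complex.continuous_ofReal.sub continuous_const).pow 2).continuousOn
    · intro s hs
      exact pow_ne_zero 2 (hne w (Metric.mem_ball_self hd) s hs)
  have key := hasDerivAt_integral_of_dominated_loc_of_deriv_le (μ := volume.restrict (Icc (-1 : ℝ) 1))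
    (F := fun (z : ℂ) (s : ℝ) => ((1 - |s| : ℝ) : ℂ) / ((s : ℂ) - z))
    (F' := fun (z : ℂ) (s : ℝ) => ((1 - |s| : ℝ) : ℂ) / ((s : ℂ) - z) ^ 2)
    (x₀ := w) (s := Metric.ball w d) (bound := fun _ => 1 / d ^ 2) (Metric.ball_mem_nhds w hd)
    ?_ ?_ ?_ ?_ ?_ ?_
  · exact key.2.differentiableAt
  · filter_upwards [Metric.ball_mem_nhds w hd] with z hz
    exact (hcont z hz).aestronglyMeasurable measurableSet_Icc
  · exact (hcont w (Metric.mem_ball_self hd)).integrableOn_compact isCompact_Icc
  · exact hcont2.aestronglyMeasurable measurableSet_Icc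
  · refine (ae_restrict_iff' measurableSet_Icc).2 (Filter.Eventually.of_forall ?_)
    intro s hs z hz
    have h1 := hdist z hz s hs
    rw [norm_div, norm_pow, Complex.norm_real, Real.norm_eq_abs]
    have h2 : abs (1 - |s|) ≤ 1 := by
      have h6 : |s| ≤ 1 := abs_le.2 ⟨hs.1, hs.2⟩
      have h7 := abs_nonneg s
      rw [abs_le]
      constructor <;> linarith
    have h3 : d ^ 2 ≤ ‖(s : ℂ) - z‖ ^ 2 := pow_le_pow_left₀ hd.le h1 2
    have h4 : 0 < d ^ 2 := by positivity
    exact div_le_div₀ (by norm_num) h2 h4 h3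
  · exact integrable_const _
  · refine (ae_restrict_iff' measurableSet_Icc).2 (Filter.Eventually.of_forall ?_)
    intro s hs z hz
    have hz0 := hne z hz s hs
    have h1 : HasDerivAt (fun z : ℂ => (s : ℂ) - z) (-1) z := by
      simpa using (hasDerivAt_id z).const_sub (s : ℂ)
    have h2 := (hasDerivAt_const z (((1 - |s| : ℝ) : ℂ))).div h1 hz0
    have h3 : (0 * ((s : ℂ) - z) - ((1 - |s| : ℝ) : ℂ) * (-1)) / ((s : ℂ) - z) ^ 2 = ((1 - |s| : ℝ) : ℂ) / ((s : ℂ) - z) ^ 2 := by
      congr 1
      ring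
    rw [h3] at h2
    exact h2

theorem RRW_neg (w : ℂ) : RR (-w) = - RR w := by
  unfold RR
  rw [integral_Icc_eq_integral_Ioc, integral_Icc_eq_integral_Ioc, ← intervalIntegral.integral_of_le (by norm_num), ← intervalIntegral.integral_of_le (by norm_num)]
  have h1 := intervalIntegral.integral_comp_neg (a := -1) (b := 1) (fun s : ℝ => ((1 - |s| : ℝ) : ℂ) / ((s : ℂ) - w))
  rw [neg_neg] at h1
  rw [← h1, ← intervalIntegral.integral_neg]
  refine intervalIntegral.integral_congr ?_
  intro s _
  show ((1 - |s| : ℝ) : ℂ) / ((s : ℂ) - -w) = -(((1 - |(-s)| : ℝ) : ℂ) / (((-s : ℝ) : ℂ) - w))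
  rw [abs_neg, Complex.ofReal_neg, ← div_neg]
  congr 1
  ring

theorem RRW_up (hR : RHO_stmt) (w : ℂ) (hw : 0 < w.im) :
    IntegrableOn (fun t : ℝ => Complex.exp (Complex.I * t * w) * (rho t : ℂ)) (Ioi 0) ∧
      RR w = Complex.I * ∫ t in Ioi (0 : ℝ), Complex.exp (Complex.I * t * w) * (rho t : ℂ) := by
  have hnexp : ∀ t : ℝ, ‖Complex.exp (Complex.I * t * w)‖ = Real.exp (-w.im * t) := by
    intro t
    rw [Complex.norm_exp]
    congr 1
    simp [Complex.mul_re, Complex.mul_im]
    ring
  have hexpi : IntegrableOn (fun t : ℝ => Real.exp (-w.im * t)) (Ioi 0) := by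
    exact integrableOn_exp_mul_Ioi (by linarith) 0
  have hce : Continuous (fun t : ℝ => Complex.exp (Complex.I * t * w)) := by fun_prop
  refine ⟨?_, ?_⟩
  · refine Integrable.mono' hexpi ?_ ?_
    · exact (hce.mul (Complex.continuous_ofReal.comp hR.ct)).aestronglyMeasurable
    · refine Filter.Eventually.of_forall ?_
      intro t
      rw [norm_mul, hnexp, Complex.norm_real, Real.norm_eq_abs, abs_of_nonneg (hR.nn t)]
      exact mul_le_of_le_one_right (Real.exp_pos _).le (hR.le t)
  · -- Fubini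
    have hint : Integrable (Function.uncurry fun (s t : ℝ) => ((1 - |s| : ℝ) : ℂ) * (ee (-(s * t)) * Complex.exp (Complex.I * t * w)))
        ((volume.restrict (Icc (-1 : ℝ) 1)).prod (volume.restrict (Ioi (0 : ℝ)))) := by
      have h1 : Integrable (fun p : ℝ × ℝ => (1 : ℝ) * Real.exp (-w.im * p.2)) ((volume.restrict (Icc (-1 : ℝ) 1)).prod (volume.restrict (Ioi (0 : ℝ)))) :=
        Integrable.mul_prod (integrable_const (1 : ℝ)) hexpi
      refine Integrable.mono' h1 ?_ ?_
      · refine Continuous.aestronglyMeasurable ?_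
        unfold ee
        simp only [Function.uncurry_def]
        fun_prop
      · have h2 : ∀ᵐ p ∂((volume.restrict (Icc (-1 : ℝ) 1)).prod (volume.restrict (Ioi (0 : ℝ)))), p.1 ∈ Icc (-1 : ℝ) 1 := by
          rw [Measure.prod_restrict]
          refine (ae_restrict_iff' (measurableSet_Icc.prod measurableSet_Ioi)).2 (Filter.Eventually.of_forall ?_)
          intro p hp
          exact hp.1
        filter_upwards [h2] with p hp
        show ‖((1 - |p.1| : ℝ) : ℂ) * (ee (-(p.1 * p.2)) * Complex.exp (Complex.I * p.2 * w))‖ ≤ 1 * Real.exp (-w.im * p.2)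
        rw [norm_mul, norm_mul, hnexp]
        unfold ee
        rw [Complex.norm_exp_ofReal_mul_I, one_mul, Complex.norm_real, Real.norm_eq_abs]
        refine mul_le_of_le_one_left (Real.exp_pos _).le ?_
        have h6 : |p.1| ≤ 1 := abs_le.2 ⟨hp.1, hp.2⟩
        have h7 := abs_nonneg p.1
        rw [abs_le]
        constructor <;> linarith
    have hswap := integral_integral_swap hint
    have hleft : (∫ s in Icc (-1 : ℝ) 1, ∫ t in Ioi (0 : ℝ), ((1 - |s| : ℝ) : ℂ) * (ee (-(s * t)) * Complex.exp (Complex.I * t * w))) = -(Complex.I) * RR w := by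
      unfold RR
      rw [← integral_const_mul]
      refine integral_congr_ae (Filter.Eventually.of_forall ?_)
      intro s
      show (∫ t in Ioi (0 : ℝ), ((1 - |s| : ℝ) : ℂ) * (ee (-(s * t)) * Complex.exp (Complex.I * t * w))) = -Complex.I * (((1 - |s| : ℝ) : ℂ) / ((s : ℂ) - w))
      rw [integral_const_mul]
      have ha : (Complex.I * (w - s)).re < 0 := by
        simp [Complex.mul_re]
        linarith
      have h3 : (∫ t in Ioi (0 : ℝ), ee (-(s * t)) * Complex.exp (Complex.I * t * w)) = ∫ t in Ioi (0 : ℝ), Complex.exp ((Complex.I * (w - s)) * (t : ℂ)) := by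
        refine integral_congr_ae (Filter.Eventually.of_forall ?_)
        intro t
        show ee (-(s * t)) * Complex.exp (Complex.I * t * w) = Complex.exp ((Complex.I * (w - s)) * (t : ℂ))
        unfold ee
        rw [← Complex.exp_add]
        congr 1
        push_cast
        ring
      rw [h3, integral_exp_mul_complex_Ioi ha 0]
      have hne : w - (s : ℂ) ≠ 0 := by
        intro h0
        have h4 := congrArg Complex.im h0
        simp at h4
        linarith
      have hne2 : (s : ℂ) - w ≠ 0 := by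
        intro h0
        apply hne
        rw [← neg_sub, h0, neg_zero]
      rw [Complex.ofReal_zero, mul_zero, Complex.exp_zero]
      have hI : Complex.I * (w - s) ≠ 0 := mul_ne_zero Complex.I_ne_zero hne
      field_simp
      have hII : Complex.I ^ 2 = -1 := Complex.I_sq
      linear_combination (((1 - |s| : ℝ) : ℂ)) * (w - s) * hII
    have hright : (∫ t in Ioi (0 : ℝ), ∫ s in Icc (-1 : ℝ) 1, ((1 - |s| : ℝ) : ℂ) * (ee (-(s * t)) * Complex.exp (Complex.I * t * w))) =
        ∫ t in Ioi (0 : ℝ), Complex.exp (Complex.I * t * w) * (rho t : ℂ) := by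
      refine integral_congr_ae (Filter.Eventually.of_forall ?_)
      intro t
      show (∫ s in Icc (-1 : ℝ) 1, ((1 - |s| : ℝ) : ℂ) * (ee (-(s * t)) * Complex.exp (Complex.I * t * w))) = Complex.exp (Complex.I * t * w) * (rho t : ℂ)
      rw [hR.ce t, ← integral_const_mul]
      refine integral_congr_ae (Filter.Eventually.of_forall ?_)
      intro s
      show ((1 - |s| : ℝ) : ℂ) * (ee (-(s * t)) * Complex.exp (Complex.I * t * w)) = Complex.exp (Complex.I * t * w) * (((1 - |s| : ℝ) : ℂ) * ee (-(s * t)))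
      ring
    rw [hright] at hswap
    rw [hleft] at hswap
    rw [← hswap]
    have hII : Complex.I * Complex.I = -1 := Complex.I_mul_I
    linear_combination (RR w) * hII

theorem RRW_proof (hR : RHO_stmt) : RRW_stmt := by
  refine ⟨RRW_diff, RRW_up hR, ?_⟩
  intro w hw
  have h1 := RRW_up hR (-w) (by simpa using hw)
  have h2 : (fun t : ℝ => Complex.exp (Complex.I * t * -w) * (rho t : ℂ)) = fun t : ℝ => Complex.exp (-(Complex.I * t * w)) * (rho t : ℂ) := by
    funext t
    rw [mul_neg]
  rw [h2, RRW_neg] at h1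
  refine ⟨h1.1, ?_⟩
  rw [← h1.2, neg_neg]

end

end Pool.Agent.FS
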