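import Pool.Agent.helper52.FS.SpecP

/-!
# MP_07c750, project FS, row `fs:SUP`: summation over the cells
-/

open MeasureTheory Set

set_option autoImplicit false

namespace Pool.Agent.FS

noncomputable section

theorem SUP_bdd {P : ℕ} {f : ℝ → ℝ} (hP : 1 ≤ P) (hf : Continuous f) (hp : Function.Periodic f (P : ℝ)) : ∃ M : ℝ, ∀ y, ‖f y‖ ≤ M := by
  obtain ⟨M, hM⟩ := (isCompact_Icc (a := (0 : ℝ)) (b := (P : ℝ))).exists_bound_of_continuousOn hf.continuousOn
  refine ⟨M, ?_⟩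
  intro y
  have hP0 : (0 : ℝ) < P := by exact_mod_cast hP
  obtain ⟨z, hz, hyz⟩ := hp.exists_mem_Ico₀ hP0 y
  rw [hyz]
  exact hM z ⟨hz.1, hz.2.le⟩

theorem SUP_one {P : ℕ} {f : ℝ → ℝ} (hf : Continuous f) (h0 : ∀ y, 0 ≤ f y) (hp : Function.Periodic f (P : ℝ)) (x : ℕ → ℝ) (hx : ∀ m < P, (m : ℝ) ≤ x m ∧ x m ≤ m + 1) :
    (∫ y in (0 : ℝ)..P, f y) ≤ ∑ m ∈ Finset.range P, ∫ v in Icc (1 / 2 : ℝ) (5 / 2), f (x m - v) := by
  have hsum : (∫ y in (0 : ℝ)..P, f y) = ∑ m ∈ Finset.range P, ∫ y in ((m : ℝ) - 3 / 2)..((m : ℝ) - 1 / 2), f y := by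
    have h1 := intervalIntegral.sum_integral_adjacent_intervals (f := f) (μ := volume) (a := fun k : ℕ => (k : ℝ) - 3 / 2) (n := P) (fun k _ => hf.intervalIntegrable _ _)
    have h2 : ∀ m ∈ Finset.range P, (∫ y in ((m : ℝ) - 3 / 2)..((m : ℝ) - 1 / 2), f y) = ∫ y in ((m : ℝ) - 3 / 2)..(((m + 1 : ℕ) : ℝ) - 3 / 2), f y := by
      intro m _
      have h3 : (m : ℝ) - 1 / 2 = ((m + 1 : ℕ) : ℝ) - 3 / 2 := by push_cast; ring
      rw [h3]
    rw [Finset.sum_congr rfl h2]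
    have h4 := hp.intervalIntegral_add_eq 0 (-(3 / 2))
    rw [zero_add] at h4
    rw [h4]
    refine Eq.trans ?_ h1.symm
    have h5 : ((0 : ℕ) : ℝ) - 3 / 2 = -(3 / 2) := by norm_num
    have h6 : (P : ℝ) - 3 / 2 = -(3 / 2) + P := by ring
    rw [h5, h6]
  rw [hsum]
  refine Finset.sum_le_sum ?_
  intro m hm
  obtain ⟨g1, g2⟩ := hx m (Finset.mem_range.1 hm)
  rw [integral_Icc_eq_integral_Ioc, ← intervalIntegral.integral_of_le (by norm_num : (1 / 2 : ℝ) ≤ 5 / 2), intervalIntegral.integral_comp_sub_left]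
  refine intervalIntegral.integral_mono_interval (by linarith) (by linarith) (by linarith) (Filter.Eventually.of_forall (fun y => h0 y)) (hf.intervalIntegrable _ _)

theorem SUP_phi {f : ℝ → ℝ} {M : ℝ} (hf : Continuous f) (hM : ∀ y, ‖f y‖ ≤ M) (s : ℝ) : Integrable (fun u : ℝ => f (s + u) / (1 + u ^ 2)) := by
  have h1 : Integrable (fun u : ℝ => M * (1 + u ^ 2)⁻¹) := integrable_inv_one_add_sq.const_mul M
  refine Integrable.mono' h1 ?_ ?_
  · refine Continuous.aestronglyMeasurable ?_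
    refine Continuous.div (hf.comp (by fun_prop)) (by fun_prop) ?_
    intro u
    positivity
  · refine Filter.Eventually.of_forall ?_
    intro u
    rw [norm_div, Real.norm_of_nonneg (by positivity : (0 : ℝ) ≤ 1 + u ^ 2), div_eq_mul_inv]
    exact mul_le_mul_of_nonneg_right (hM _) (by positivity)

theorem SUP_cmp {f : ℝ → ℝ} {M : ℝ} (hf : Continuous f) (h0 : ∀ y, 0 ≤ f y) (hM : ∀ y, ‖f y‖ ≤ M) (s x : ℝ) (hsx : |s - x| ≤ 1) :
    (∫ u, f (x + u) / (1 + u ^ 2)) ≤ 3 * ∫ u, f (s + u) / (1 + u ^ 2) := by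
  have h1 : (∫ u, f (x + u) / (1 + u ^ 2)) = ∫ y, f y / (1 + (y - x) ^ 2) := by
    have h2 := integral_add_left_eq_self (μ := volume) (fun y : ℝ => f y / (1 + (y - x) ^ 2)) x
    rw [← h2]
    refine integral_congr_ae (Filter.Eventually.of_forall ?_)
    intro u
    show f (x + u) / (1 + u ^ 2) = f (x + u) / (1 + (x + u - x) ^ 2)
    rw [add_sub_cancel_left]
  have h2 : (∫ u, f (s + u) / (1 + u ^ 2)) = ∫ y, f y / (1 + (y - s) ^ 2) := by
    have h2 := integral_add_left_eq_self (μ := volume) (fun y : ℝ => f y / (1 + (y - s) ^ 2)) s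
    rw [← h2]
    refine integral_congr_ae (Filter.Eventually.of_forall ?_)
    intro u
    show f (s + u) / (1 + u ^ 2) = f (s + u) / (1 + (s + u - s) ^ 2)
    rw [add_sub_cancel_left]
  have hi : ∀ z : ℝ, Integrable (fun y : ℝ => f y / (1 + (y - z) ^ 2)) := by
    intro z
    have h3 := (SUP_phi hf hM z).comp_sub_right z
    refine h3.congr (Filter.Eventually.of_forall ?_)
    intro y
    show f (z + (y - z)) / (1 + (y - z) ^ 2) = f y / (1 + (y - z) ^ 2)
    rw [add_sub_cancel]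
  rw [h1, h2, ← integral_const_mul]
  refine integral_mono (hi x) ((hi s).const_mul 3) ?_
  intro y
  show f y / (1 + (y - x) ^ 2) ≤ 3 * (f y / (1 + (y - s) ^ 2))
  have h5 : 1 + (y - s) ^ 2 ≤ 3 * (1 + (y - x) ^ 2) := by
    have h6 := abs_le.1 hsx
    nlinarith [sq_nonneg ((y - x) + (s - x)), sq_nonneg (s - x)]
  have h7 : (1 : ℝ) / (1 + (y - x) ^ 2) ≤ 3 / (1 + (y - s) ^ 2) := by
    rw [div_le_div_iff₀ (by positivity) (by positivity)]
    linarith
  calc f y / (1 + (y - x) ^ 2) = f y * (1 / (1 + (y - x) ^ 2)) := by ring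
    _ ≤ f y * (3 / (1 + (y - s) ^ 2)) := mul_le_mul_of_nonneg_left h7 (h0 y)
    _ = 3 * (f y / (1 + (y - s) ^ 2)) := by ring

theorem SUP_fub {P : ℕ} {f : ℝ → ℝ} {M : ℝ} (hf : Continuous f) (hM : ∀ y, ‖f y‖ ≤ M) (hp : Function.Periodic f (P : ℝ)) :
    IntervalIntegrable (fun s : ℝ => ∫ u, f (s + u) / (1 + u ^ 2)) volume 0 P ∧
      (∫ s in (0 : ℝ)..P, ∫ u, f (s + u) / (1 + u ^ 2)) = Real.pi * ∫ y in (0 : ℝ)..P, f y := by
  have hP0 : (0 : ℝ) ≤ P := Nat.cast_nonneg P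
  have hint : Integrable (Function.uncurry fun (s u : ℝ) => f (s + u) / (1 + u ^ 2)) ((volume.restrict (Ioc (0 : ℝ) P)).prod volume) := by
    have h1 : Integrable (fun p : ℝ × ℝ => M * (1 + p.2 ^ 2)⁻¹) ((volume.restrict (Ioc (0 : ℝ) P)).prod volume) :=
      Integrable.mul_prod (integrable_const M) integrable_inv_one_add_sq
    refine Integrable.mono' h1 ?_ ?_
    · refine Continuous.aestronglyMeasurable ?_
      show Continuous (fun p : ℝ × ℝ => f (p.1 + p.2) / (1 + p.2 ^ 2))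
      refine Continuous.div (hf.comp (by fun_prop)) (by fun_prop) ?_
      intro u
      positivity
    · refine Filter.Eventually.of_forall ?_
      intro p
      show ‖f (p.1 + p.2) / (1 + p.2 ^ 2)‖ ≤ M * (1 + p.2 ^ 2)⁻¹
      rw [norm_div, Real.norm_of_nonneg (by positivity : (0 : ℝ) ≤ 1 + p.2 ^ 2), div_eq_mul_inv]
      exact mul_le_mul_of_nonneg_right (hM _) (by positivity)
  refine ⟨?_, ?_⟩
  · rw [intervalIntegrable_iff_integrableOn_Ioc_of_le hP0]
    exact hint.integral_prod_left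
  · rw [intervalIntegral.integral_of_le hP0]
    have h2 := integral_integral_swap hint
    rw [h2]
    have h3 : ∀ u : ℝ, (∫ s in Ioc (0 : ℝ) P, f (s + u) / (1 + u ^ 2)) = (∫ y in (0 : ℝ)..P, f y) * (1 + u ^ 2)⁻¹ := by
      intro u
      have h4 : (∫ s in Ioc (0 : ℝ) P, f (s + u)) = ∫ y in (0 : ℝ)..P, f y := by
        rw [← intervalIntegral.integral_of_le hP0, intervalIntegral.integral_comp_add_right]
        have h5 := hp.intervalIntegral_add_eq 0 u
        rw [zero_add] at h5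
        rw [h5]
        congr 1 <;> ring
      rw [← h4, ← integral_mul_const]
      refine integral_congr_ae (Filter.Eventually.of_forall ?_)
      intro s
      show f (s + u) / (1 + u ^ 2) = f (s + u) * (1 + u ^ 2)⁻¹
      rw [div_eq_mul_inv]
    rw [integral_congr_ae (Filter.Eventually.of_forall h3), integral_const_mul, integral_univ_inv_one_add_sq, mul_comm]

theorem SUP_two {P : ℕ} {f : ℝ → ℝ} (hP : 1 ≤ P) (hf : Continuous f) (h0 : ∀ y, 0 ≤ f y) (hp : Function.Periodic f (P : ℝ)) (x : ℕ → ℝ) (hx : ∀ m < P, (m : ℝ) ≤ x m ∧ x m ≤ m + 1) :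
    ∑ m ∈ Finset.range P, ∫ u, f (x m + u) / (1 + u ^ 2) ≤ 12 * ∫ y in (0 : ℝ)..P, f y := by
  obtain ⟨M, hM⟩ := SUP_bdd hP hf hp
  have hP0 : (0 : ℝ) ≤ P := Nat.cast_nonneg P
  obtain ⟨hI, hE⟩ := SUP_fub hf hM hp
  have h1 : ∀ m ∈ Finset.range P, (∫ u, f (x m + u) / (1 + u ^ 2)) ≤ ∫ s in (m : ℝ)..((m + 1 : ℕ) : ℝ), 3 * ∫ u, f (s + u) / (1 + u ^ 2) := by
    intro m hm
    have hmP := Finset.mem_range.1 hm
    obtain ⟨g1, g2⟩ := hx m hmP
    have hmm : (m : ℝ) ≤ ((m + 1 : ℕ) : ℝ) := by push_cast; linarith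
    have hmP' : ((m + 1 : ℕ) : ℝ) ≤ P := by exact_mod_cast hmP
    have h2 : (∫ s in (m : ℝ)..((m + 1 : ℕ) : ℝ), (∫ u, f (x m + u) / (1 + u ^ 2))) ≤ ∫ s in (m : ℝ)..((m + 1 : ℕ) : ℝ), 3 * ∫ u, f (s + u) / (1 + u ^ 2) := by
      refine intervalIntegral.integral_mono_on hmm intervalIntegrable_const ?_ ?_
      · refine IntervalIntegrable.const_mul ?_ 3
        refine hI.mono_set ?_
        rw [uIcc_of_le hmm, uIcc_of_le hP0]
        exact Icc_subset_Icc (Nat.cast_nonneg m) hmP'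
      · intro s hs
        refine SUP_cmp hf h0 hM s (x m) ?_
        rw [abs_le]
        have h3 := hs.1
        have h4 := hs.2
        push_cast at h4
        constructor <;> linarith
    rw [intervalIntegral.integral_const] at h2
    have h3 : (((m + 1 : ℕ) : ℝ) - m) = 1 := by push_cast; ring
    rw [h3, one_smul] at h2
    exact h2
  refine (Finset.sum_le_sum h1).trans ?_
  have h4 := intervalIntegral.sum_integral_adjacent_intervals (f := fun s : ℝ => 3 * ∫ u, f (s + u) / (1 + u ^ 2)) (μ := volume) (a := fun k : ℕ => (k : ℝ)) (n := P) ?_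
  · rw [h4, Nat.cast_zero, intervalIntegral.integral_const_mul, hE]
    have h5 : 0 ≤ ∫ y in (0 : ℝ)..P, f y := intervalIntegral.integral_nonneg hP0 (fun y _ => h0 y)
    have h6 := Real.pi_le_four
    nlinarith
  · intro k hk
    have hmm : (k : ℝ) ≤ ((k + 1 : ℕ) : ℝ) := by push_cast; linarith
    have hkP : ((k + 1 : ℕ) : ℝ) ≤ P := by exact_mod_cast hk
    refine IntervalIntegrable.const_mul ?_ 3
    refine hI.mono_set ?_
    rw [uIcc_of_le hmm, uIcc_of_le hP0]
    exact Icc_subset_Icc (Nat.cast_nonneg k) hkP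

theorem SUP_three {P : ℕ} {f : ℝ → ℝ} {E : Set ℝ} {c : ℝ} (hc : 0 < c) (hc1 : c ≤ 1) (hf : Continuous f) (h0 : ∀ y, 0 ≤ f y) (hp : Function.Periodic f (P : ℝ))
    (hE : MeasurableSet E) (hEp : ∀ y : ℝ, y + (P : ℝ) ∈ E ↔ y ∈ E) (x : ℕ → ℝ) (hx : ∀ m < P, (m : ℝ) ≤ x m ∧ x m ≤ m + 1 ∧ Ioo (x m - c) (x m + c) ⊆ E) :
    ∑ m ∈ Finset.range P, ∫ u in Icc (-c) c, f (x m + u) ≤ 3 * ∫ y in E ∩ Icc (0 : ℝ) P, f y := by
  have hP0 : (0 : ℝ) ≤ P := Nat.cast_nonneg P
  have hgp : Function.Periodic (E.indicator f) (P : ℝ) := by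
    intro y
    by_cases h : y ∈ E
    · rw [indicator_of_mem h, indicator_of_mem ((hEp y).2 h), hp y]
    · rw [indicator_of_notMem h, indicator_of_notMem (fun h' => h ((hEp y).1 h'))]
  have hg0 : ∀ y, 0 ≤ E.indicator f y := fun y => indicator_nonneg (fun z _ => h0 z) y
  have hgi : ∀ a b : ℝ, IntervalIntegrable (E.indicator f) volume a b := by
    intro a b
    have h1 := hf.intervalIntegrable (μ := volume) a b
    exact ⟨h1.1.indicator hE, h1.2.indicator hE⟩
  have h1 : ∀ m ∈ Finset.range P, (∫ u in Icc (-c) c, f (x m + u)) ≤ (∫ y in ((m : ℝ) - 1)..(m : ℝ), E.indicator f y) + (∫ y in (m : ℝ)..((m : ℝ) + 1), E.indicator f y) + ∫ y in ((m : ℝ) + 1)..((m : ℝ) + 2), E.indicator f y := by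
    intro m hm
    obtain ⟨g1, g2, g3⟩ := hx m (Finset.mem_range.1 hm)
    have h2 : (∫ u in Icc (-c) c, f (x m + u)) = ∫ y in (x m - c)..(x m + c), E.indicator f y := by
      rw [integral_Icc_eq_integral_Ioc, ← intervalIntegral.integral_of_le (by linarith), intervalIntegral.integral_comp_add_left]
      rw [intervalIntegral.integral_of_le (by linarith), intervalIntegral.integral_of_le (by linarith), integral_Ioc_eq_integral_Ioo, integral_Ioc_eq_integral_Ioo]
      have h3 : x m + -c = x m - c := by ring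
      rw [h3]
      refine setIntegral_congr_fun measurableSet_Ioo ?_
      intro y hy
      show f y = E.indicator f y
      rw [indicator_of_mem (g3 hy)]
    rw [h2, intervalIntegral.integral_add_adjacent_intervals (hgi _ _) (hgi _ _), intervalIntegral.integral_add_adjacent_intervals (hgi _ _) (hgi _ _)]
    refine intervalIntegral.integral_mono_interval (by linarith) (by linarith) (by linarith) (Filter.Eventually.of_forall (fun y => hg0 y)) (hgi _ _)
  refine (Finset.sum_le_sum h1).trans ?_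
  rw [Finset.sum_add_distrib, Finset.sum_add_distrib]
  have hadj : ∀ d : ℝ, ∑ m ∈ Finset.range P, (∫ y in ((m : ℝ) + d)..((m : ℝ) + (d + 1)), E.indicator f y) = ∫ y in (0 : ℝ)..P, E.indicator f y := by
    intro d
    have h2 := intervalIntegral.sum_integral_adjacent_intervals (f := E.indicator f) (μ := volume) (a := fun k : ℕ => (k : ℝ) + d) (n := P) (fun k _ => hgi _ _)
    have h3 : ∀ m ∈ Finset.range P, (∫ y in ((m : ℝ) + d)..((m : ℝ) + (d + 1)), E.indicator f y) = ∫ y in ((m : ℝ) + d)..(((m + 1 : ℕ) : ℝ) + d), E.indicator f y := by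
      intro m _
      have h4 : (m : ℝ) + (d + 1) = ((m + 1 : ℕ) : ℝ) + d := by push_cast; ring
      rw [h4]
    rw [Finset.sum_congr rfl h3]
    refine h2.trans ?_
    have h5 := hgp.intervalIntegral_add_eq 0 d
    rw [zero_add] at h5
    rw [h5]
    have h6 : ((0 : ℕ) : ℝ) + d = d := by norm_num
    have h7 : (P : ℝ) + d = d + P := by ring
    rw [h6, h7]
  have k1 := hadj (-1)
  have k2 := hadj 0
  have k3 := hadj 1
  have e1 : ∀ m : ℕ, (∫ y in ((m : ℝ) + (-1))..((m : ℝ) + ((-1) + 1)), E.indicator f y) = ∫ y in ((m : ℝ) - 1)..(m : ℝ), E.indicator f y := by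
    intro m
    have : (m : ℝ) + ((-1) + 1) = m := by ring
    rw [this]
    have : (m : ℝ) + (-1) = m - 1 := by ring
    rw [this]
  have e2 : ∀ m : ℕ, (∫ y in ((m : ℝ) + 0)..((m : ℝ) + (0 + 1)), E.indicator f y) = ∫ y in (m : ℝ)..((m : ℝ) + 1), E.indicator f y := by
    intro m
    rw [add_zero, zero_add]
  have e3 : ∀ m : ℕ, (∫ y in ((m : ℝ) + 1)..((m : ℝ) + (1 + 1)), E.indicator f y) = ∫ y in ((m : ℝ) + 1)..((m : ℝ) + 2), E.indicator f y := by
    intro m
    have : (m : ℝ) + (1 + 1) = m + 2 := by ring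
    rw [this]
  rw [Finset.sum_congr rfl (fun m _ => e1 m)] at k1
  rw [Finset.sum_congr rfl (fun m _ => e2 m)] at k2
  rw [Finset.sum_congr rfl (fun m _ => e3 m)] at k3
  rw [k1, k2, k3]
  have h8 : (∫ y in E ∩ Icc (0 : ℝ) P, f y) = ∫ y in (0 : ℝ)..P, E.indicator f y := by
    rw [intervalIntegral.integral_of_le hP0, ← integral_Icc_eq_integral_Ioc, setIntegral_indicator hE, inter_comm]
  rw [h8]
  linarith

theorem SUP_proof : SUP_stmt := by
  refine ⟨12, by norm_num, ?_⟩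
  intro c P f E x hc hc1 hP hf h0 hp hE hEp hx
  have hP0 : (0 : ℝ) ≤ P := Nat.cast_nonneg P
  have hcv : (∫ y in Icc (0 : ℝ) P, f y) = ∫ y in (0 : ℝ)..P, f y := by
    rw [integral_Icc_eq_integral_Ioc, ← intervalIntegral.integral_of_le hP0]
  rw [hcv]
  refine ⟨SUP_one hf h0 hp x (fun m hm => ⟨(hx m hm).1, (hx m hm).2.1⟩), SUP_two hP hf h0 hp x (fun m hm => ⟨(hx m hm).1, (hx m hm).2.1⟩), ?_⟩
  refine (SUP_three hc hc1 hf h0 hp hE hEp x hx).trans ?_
  have h1 : 0 ≤ ∫ y in E ∩ Icc (0 : ℝ) P, f y := integral_nonneg (fun y => h0 y)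
  linarith

end

end Pool.Agent.FS
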